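import Pool.Agent.Run7.h743.MainG

/-!
# The conjecture of Mazur–Rubin and Sano: reduction to cyclic extensions of prime power degree

`K / k` is an abelian extension of number fields with group `G`, `L = K^H`, `d = #(V' \ V)`. Let `H'`
be a subgroup of `H` such that the places of `V'` split completely in `L' = K^{H'}`, for example the
group generated by the decomposition groups of the places of `V' \ V`, such that `d < p` for every
prime number `p` whose square divides the exponent of `H'` (no condition if `d ≤ 1`, or if the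
exponent is squarefree). Then the conjecture for `(K, L, V, V')` follows from the conjecture for
`(K', L', V, V')`, `K' / L'` cyclic of prime power degree, no place of `V' \ V` split completely
in `K'`.
-/

set_option autoImplicit false

open Run7.h743

theorem Pool.Agent.Results.MP_1c1251_nt.CyclicPrimePower.result {k K G : Type} [Field k]
    [NumberField k] [Field K] [NumberField K] [Algebra k K] [CommGroup G] [Finite G]
    [MulSemiringAction G K] [IsGaloisGroup G k K] {ι δ : Type} [Fintype ι] [DecidableEq ι]
    [Fintype δ] [DecidableEq δ] (D : STData k K) (H' H : Subgroup G) (hH : H' ≤ H)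
    (hexp : ∀ p : ℕ, p.Prime → p ^ 2 ∣ Monoid.exponent H' → Fintype.card δ < p)
    (w : ι → Pool.Agent.K3h30.RS.Place K) (x : δ → Pool.Agent.K3h30.RS.Place K)
    (_hw : D.IsV (⊥ : Subgroup G) w) (hx : D.IsV H' (Sum.elim x w)) (ρ : δ → D.UN H' →* G)
    (hρ : ∀ j a, Pool.Agent.K3h30.RS.Fixes (x j) (ρ j a))
    (hRS : ∃ u : D.Elt H' (δ ⊕ ι), D.IsRS H' (Sum.elim x w) u)
    (hMRS : ∀ (N : Subgroup G) (hN : N ≤ H'), IsPrimePow (N.relIndex H') →
      IsCyclic (H' ⧸ N.subgroupOf H') →
      (∀ j, ∃ γ : G, Pool.Agent.K3h30.RS.Fixes (x j) γ ∧ γ ∉ N) → D.MRS hN w x ρ) :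
    D.MRS (bot_le : ⊥ ≤ H) w x (fun j => (ρ j).comp (Subgroup.inclusion (D.UN_mono hH))) :=
  D.mrs_cyclic hH hexp w x hx ρ hρ hRS hMRS
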